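import Pool.Agent.helper79.EPT.Spec

/-!
# ept:ITK
-/

set_option autoImplicit false

open scoped Classical

namespace Pool.Agent.EPT

open Finset

noncomputable section

theorem ITK_perm (P : ℕ → Prop) (L : ℕ) (hP : ∀ b, P (b + L) ↔ P b) (m k : ℕ) : P (m * L + k) ↔ P k := by
  induction m with
  | zero => rw [Nat.zero_mul, Nat.zero_add]
  | succ m ih =>
    have h : (m + 1) * L + k = (m * L + k) + L := by ring
    rw [h, hP, ih]

theorem ITK_per (P : ℕ → Prop) [DecidablePred P] (L : ℕ) (hP : ∀ b, P (b + L) ↔ P b) (m : ℕ) :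
    ((range (m * L)).filter P).card = m * ((range L).filter P).card := by
  rw [← Nat.count_eq_card_filter_range, ← Nat.count_eq_card_filter_range]
  induction m with
  | zero => simp
  | succ m ih =>
    have h : (m + 1) * L = m * L + L := by ring
    rw [h, Nat.count_add, ih]
    have h2 : (fun k => P (m * L + k)) = P := by
      funext k
      exact propext (ITK_perm P L hP m k)
    simp only [h2]
    ring

theorem ITK_dvd {r L n b : ℕ} (h : r ∣ L) : r ∣ n + (b + L) ↔ r ∣ n + b := by
  rw [← Nat.add_assoc]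
  exact (Nat.dvd_add_iff_left h).symm

theorem ITK (hIT1 : IT1_stmt) : ITK_stmt := by
  intro k N u α v β
  induction k with
  | zero =>
    intro ε hu hv hε
    refine ⟨∅, 1, one_pos, ?_, ?_⟩
    · intro x hx
      exact absurd hx (notMem_empty x)
    · simp
      exact hε.le
  | succ k ih =>
    intro ε hu hv hε
    obtain ⟨I, L, hL, hI, hb⟩ := ih (ε / 2) hu hv (half_pos hε)
    obtain ⟨I', L', hL', hI', hb'⟩ := hIT1 (N + ∑ x ∈ I, x.1) u α v β (ε / 2) hu hv (half_pos hε)
    have hdis : Disjoint I I' := by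
      rw [Finset.disjoint_left]
      intro x hx hx'
      have h1 := (hI' x hx').2.2.1
      have h2 : x.1 ≤ ∑ y ∈ I, y.1 := Finset.single_le_sum (f := fun y : ℕ × ℕ => y.1) (fun _ _ => Nat.zero_le _) hx
      omega
    refine ⟨I ∪ I', L * L', Nat.mul_pos hL hL', ?_, ?_⟩
    · intro x hx
      rcases Finset.mem_union.1 hx with hx | hx
      · obtain ⟨h1, h2, h3, h4, h5, h6, h7⟩ := hI x hx
        exact ⟨h1, h2, h3, h4, h5, h6, Dvd.dvd.mul_right h7 L'⟩
      · obtain ⟨h1, h2, h3, h4, h5, h6, h7⟩ := hI' x hx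
        exact ⟨h1, h2, by omega, h4, h5, h6, Dvd.dvd.mul_left h7 L⟩
    · have hsub : ((range (L * L')).filter fun b =>
            ((I ∪ I').filter fun x => pr α x.1 * pr β x.2 ∣ x.1 * x.2 + b).card < k + 1) ⊆
          ((range (L * L')).filter fun b => (I.filter fun x => pr α x.1 * pr β x.2 ∣ x.1 * x.2 + b).card < k) ∪
          ((range (L * L')).filter fun b => ∀ x ∈ I', ¬ pr α x.1 * pr β x.2 ∣ x.1 * x.2 + b) := by
        intro b hb2
        rw [Finset.mem_filter] at hb2
        rw [Finset.mem_union, Finset.mem_filter, Finset.mem_filter]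
        by_cases hc : ∀ x ∈ I', ¬ pr α x.1 * pr β x.2 ∣ x.1 * x.2 + b
        · exact Or.inr ⟨hb2.1, hc⟩
        · left
          refine ⟨hb2.1, ?_⟩
          push Not at hc
          obtain ⟨x, hx, hxd⟩ := hc
          have h3 := hb2.2
          rw [Finset.filter_union, Finset.card_union_of_disjoint (Finset.disjoint_filter_filter hdis)] at h3
          have h4 : 0 < (I'.filter fun x => pr α x.1 * pr β x.2 ∣ x.1 * x.2 + b).card :=
            Finset.card_pos.2 ⟨x, Finset.mem_filter.2 ⟨hx, hxd⟩⟩
          omega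
      have hc1 := ITK_per (fun b => (I.filter fun x => pr α x.1 * pr β x.2 ∣ x.1 * x.2 + b).card < k) L
        (by
          intro b
          have : (I.filter fun x => pr α x.1 * pr β x.2 ∣ x.1 * x.2 + (b + L)) =
              I.filter fun x => pr α x.1 * pr β x.2 ∣ x.1 * x.2 + b := by
            refine Finset.filter_congr ?_
            intro x hx
            exact ITK_dvd (hI x hx).2.2.2.2.2.2
          show (I.filter fun x => pr α x.1 * pr β x.2 ∣ x.1 * x.2 + (b + L)).card < k ↔ _
          rw [this]) L'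
      have hc2 := ITK_per (fun b => ∀ x ∈ I', ¬ pr α x.1 * pr β x.2 ∣ x.1 * x.2 + b) L'
        (by
          intro b
          show (∀ x ∈ I', ¬ pr α x.1 * pr β x.2 ∣ x.1 * x.2 + (b + L')) ↔ _
          constructor
          · intro h x hx hd
            exact h x hx ((ITK_dvd (hI' x hx).2.2.2.2.2.2).2 hd)
          · intro h x hx hd
            exact h x hx ((ITK_dvd (hI' x hx).2.2.2.2.2.2).1 hd)) L
      have hc3 := (Finset.card_le_card hsub).trans (Finset.card_union_le _ _)
      rw [Nat.mul_comm L' L] at hc1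
      rw [hc1, hc2] at hc3
      have hc4 : ((((range (L * L')).filter fun b =>
            ((I ∪ I').filter fun x => pr α x.1 * pr β x.2 ∣ x.1 * x.2 + b).card < k + 1).card : ℕ) : ℝ) ≤
          (L' : ℝ) * (((range L).filter fun b =>
            (I.filter fun x => pr α x.1 * pr β x.2 ∣ x.1 * x.2 + b).card < k).card : ℝ) +
          (L : ℝ) * (((range L').filter fun b => ∀ x ∈ I', ¬ pr α x.1 * pr β x.2 ∣ x.1 * x.2 + b).card : ℝ) := by
        exact_mod_cast hc3
      have e1 : (L' : ℝ) * (((range L).filter fun b =>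
            (I.filter fun x => pr α x.1 * pr β x.2 ∣ x.1 * x.2 + b).card < k).card : ℝ) ≤ L' * (ε / 2 * L) :=
        mul_le_mul_of_nonneg_left hb (Nat.cast_nonneg _)
      have e2 : (L : ℝ) * (((range L').filter fun b => ∀ x ∈ I', ¬ pr α x.1 * pr β x.2 ∣ x.1 * x.2 + b).card : ℝ) ≤
          L * (ε / 2 * L') := mul_le_mul_of_nonneg_left hb' (Nat.cast_nonneg _)
      have e3 : ((L * L' : ℕ) : ℝ) = (L : ℝ) * L' := by push_cast; ring
      rw [e3]
      calc _ ≤ _ := hc4
        _ ≤ L' * (ε / 2 * L) + L * (ε / 2 * L') := add_le_add e1 e2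
        _ = ε * (L * L') := by ring

end

end Pool.Agent.EPT
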