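import Pool.Agent.helper79.EPT.Spec

/-!
# ept:TTB
-/

set_option autoImplicit false

open scoped Classical

namespace Pool.Agent.EPT

open Finset

noncomputable section

/-- membership facts of `SP` -/
theorem TTB_mem (hRS2 : RS2_stmt) {W₁ u α t s p : ℕ} (hW : Odd W₁) (hu : Ok u α) (ht : Rs W₁ u t)
    (hp : p ∈ SP (8 * W₁) t s (2 * s)) :
    p = α * pr α p + 1 ∧ 0 < pr α p ∧ p ≤ 8 * pr α p ∧ pr α p ≤ 2 ^ (2 * s) ∧ 2 ^ s < p := by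
  unfold SP at hp
  rw [Finset.mem_filter, Finset.mem_Ioc] at hp
  obtain ⟨h1, h2, h3, -⟩ := hRS2 W₁ u α t p hW hu ht hp.2.2
  refine ⟨h1, h2, h3, ?_, hp.1.1⟩
  have h4 : pr α p ≤ p := (Nat.div_le_self _ _).trans (Nat.sub_le _ _)
  exact h4.trans hp.1.2

theorem TTB_inj (hRS2 : RS2_stmt) {W₁ u α t s : ℕ} (hW : Odd W₁) (hu : Ok u α) (ht : Rs W₁ u t) (T : Finset ℕ)
    (hT : T ⊆ SP (8 * W₁) t s (2 * s)) :
    ∑ p ∈ T, 1 / (pr α p : ℝ) = ∑ x ∈ T.image (pr α), 1 / (x : ℝ) := by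
  rw [Finset.sum_image]
  intro a ha b hb hab
  have h1 := (TTB_mem hRS2 hW hu ht (hT ha)).1
  have h2 := (TTB_mem hRS2 hW hu ht (hT hb)).1
  rw [h1, h2, hab]

theorem TTB_A (hRS2 : RS2_stmt) (hTRM : TRM_stmt) (hPHS : PHS_stmt) {W₁ u α t s h : ℕ} (hW : Odd W₁) (hu : Ok u α)
    (ht : Rs W₁ u t) (hh : 1 ≤ h) :
    ∑ p ∈ (SP (8 * W₁) t s (2 * s)).filter (fun p => h ∣ pr α p), 1 / (pr α p : ℝ) ≤ (2 * (s : ℝ) + 1) / h := by
  rw [TTB_inj hRS2 hW hu ht _ (Finset.filter_subset _ _)]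
  have h1 := hTRM (((SP (8 * W₁) t s (2 * s)).filter (fun p => h ∣ pr α p)).image (pr α)) (2 ^ (2 * s)) h hh
    Nat.one_le_two_pow
    (by
      intro x hx
      obtain ⟨p, hp, rfl⟩ := Finset.mem_image.1 hx
      rw [Finset.mem_filter] at hp
      obtain ⟨-, h2, -, h4, -⟩ := TTB_mem hRS2 hW hu ht hp.1
      exact ⟨h2, h4, hp.2⟩)
  refine h1.trans ?_
  have h2 := (hPHS.2 s 1 le_rfl).2.2.2
  have h3 : (0 : ℝ) < h := by exact_mod_cast hh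
  exact div_le_div_of_nonneg_right h2 h3.le

theorem TTB_mod {u α f x y : ℕ} (hu : Ok u α) (hf : Nat.Coprime f 8) (hd : f ∣ Nat.dist (α * x + 1) (α * y + 1)) :
    y % f = x % f := by
  have h8 : α ∣ 8 := by
    rcases hu with ⟨-, h⟩ | ⟨-, h⟩ <;> rw [h] <;> norm_num
  have hc : Nat.Coprime f α := Nat.Coprime.coprime_dvd_right h8 hf
  have h1 : Nat.dist (α * x + 1) (α * y + 1) = α * Nat.dist x y := by
    rw [Nat.dist_add_add_right, Nat.dist_mul_left]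
  rw [h1] at hd
  have h2 : f ∣ Nat.dist x y := hc.dvd_of_dvd_mul_left hd
  rcases le_total x y with h | h
  · rw [Nat.dist_eq_sub_of_le h] at h2
    exact ((Nat.modEq_iff_dvd' h).2 h2).symm
  · rw [Nat.dist_eq_sub_of_le_right h] at h2
    exact (Nat.modEq_iff_dvd' h).2 h2

theorem TTB_B (hRS2 : RS2_stmt) (hTRI : TRI_stmt) (hPHS : PHS_stmt) {W₁ u α t s h f p₁ : ℕ} (hW : Odd W₁) (hu : Ok u α)
    (ht : Rs W₁ u t) (hf : 1 ≤ f) (hfc : Nat.Coprime f (8 * W₁)) (hp₁ : p₁ ∈ SP (8 * W₁) t s (2 * s)) :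
    ∑ p ∈ (SP (8 * W₁) t s (2 * s)).filter (fun p => h ∣ pr α p ∧ f ∣ Nat.dist p₁ p), 1 / (pr α p : ℝ) ≤
      8 / 2 ^ s + (2 * (s : ℝ) + 1) / f := by
  rw [TTB_inj hRS2 hW hu ht _ (Finset.filter_subset _ _)]
  have hA : 1 ≤ (2 ^ s + 7) / 8 := by
    have : 1 ≤ 2 ^ s := Nat.one_le_two_pow
    omega
  have h1 := hTRI (((SP (8 * W₁) t s (2 * s)).filter (fun p => h ∣ pr α p ∧ f ∣ Nat.dist p₁ p)).image (pr α))
    ((2 ^ s + 7) / 8) (2 ^ (2 * s)) f (pr α p₁) hA hf Nat.one_le_two_pow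
    (by
      intro x hx
      obtain ⟨p, hp, rfl⟩ := Finset.mem_image.1 hx
      rw [Finset.mem_filter] at hp
      obtain ⟨h1, h2, h3, h4, h5⟩ := TTB_mem hRS2 hW hu ht hp.1
      obtain ⟨g1, -⟩ := TTB_mem hRS2 hW hu ht hp₁
      refine ⟨?_, h4, ?_⟩
      · omega
      · refine TTB_mod hu (Nat.Coprime.coprime_dvd_right (Dvd.intro _ rfl) hfc) ?_
        rw [← g1, ← h1]
        exact hp.2.2)
  refine h1.trans (add_le_add ?_ ?_)
  · have h2 : (2 : ℕ) ^ s ≤ (2 ^ s + 7) / 8 * 8 := by omega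
    have h3 : (2 : ℝ) ^ s ≤ (((2 ^ s + 7) / 8 : ℕ) : ℝ) * 8 := by exact_mod_cast h2
    have h4 : (0 : ℝ) < (((2 ^ s + 7) / 8 : ℕ) : ℝ) := by exact_mod_cast hA
    rw [div_le_div_iff₀ h4 (by positivity)]
    linarith
  · have h2 := (hPHS.2 s 1 le_rfl).2.2.2
    have h3 : (0 : ℝ) < f := by exact_mod_cast hf
    exact div_le_div_of_nonneg_right h2 h3.le

theorem TTB_fac (A : Finset ℕ) (B : ℕ → Finset ℕ) (g : ℕ → ℝ) (X Y : ℝ) (hg : ∀ a, 0 ≤ g a) (hY : 0 ≤ Y)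
    (h1 : ∑ a ∈ A, 1 / g a ≤ X) (h2 : ∀ a ∈ A, ∑ b ∈ B a, 1 / g b ≤ Y) :
    ∑ a ∈ A, ∑ b ∈ B a, 1 / (g a * g b) ≤ X * Y := by
  have h3 : ∀ a ∈ A, ∑ b ∈ B a, 1 / (g a * g b) ≤ 1 / g a * Y := by
    intro a ha
    have h4 : ∑ b ∈ B a, 1 / (g a * g b) = 1 / g a * ∑ b ∈ B a, 1 / g b := by
      rw [Finset.mul_sum]
      refine Finset.sum_congr rfl ?_
      intro b _
      rw [one_div_mul_one_div]
    rw [h4]
    exact mul_le_mul_of_nonneg_left (h2 a ha) (one_div_nonneg.2 (hg a))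
  calc ∑ a ∈ A, ∑ b ∈ B a, 1 / (g a * g b) ≤ ∑ a ∈ A, 1 / g a * Y := Finset.sum_le_sum h3
    _ = (∑ a ∈ A, 1 / g a) * Y := by rw [Finset.sum_mul]
    _ ≤ X * Y := mul_le_mul_of_nonneg_right h1 hY

theorem TTB (hRS2 : RS2_stmt) (hTRI : TRI_stmt) (hTRM : TRM_stmt) (hPHS : PHS_stmt) : TTB_stmt := by
  intro W₁ u α t s h f hW hu ht hh hf hfc
  have hX := TTB_A hRS2 hTRM hPHS (s := s) hW hu ht hh
  have h0 : (0 : ℝ) ≤ 2 * (s : ℝ) + 1 := by positivity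
  constructor
  · unfold TT
    rw [sq]
    refine TTB_fac _ _ (fun p => (pr α p : ℝ)) _ _ (fun a => Nat.cast_nonneg _) (by positivity) hX ?_
    intro a _
    refine le_trans ?_ hX
    refine Finset.sum_le_sum_of_subset_of_nonneg ?_ ?_
    · intro p hp
      rw [Finset.mem_filter] at hp ⊢
      exact ⟨hp.1, hp.2.1⟩
    · intro p _ _
      positivity
  · unfold TT
    refine TTB_fac _ _ (fun p => (pr α p : ℝ)) _ _ (fun a => Nat.cast_nonneg _) (by positivity) hX ?_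
    intro a ha
    exact TTB_B hRS2 hTRI hPHS hW hu ht hf hfc (Finset.mem_filter.1 ha).1

end

end Pool.Agent.EPT
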